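import Pool.Agent.R545.PC.Main
import Pool.Agent.R129.Sh.Short

set_option autoImplicit false

/-!
# Three even subgraphs of total length at least twice the number of edges: graphs with independence number at most six (MP_5ee2e8_co)

Let `G` be a finite graph without cut-edge such that any seven different vertices, each of which is
an end of an edge, include two which are joined by an edge or by two different paths with two edges;
for instance, let the independence number be at most six.
Then `G` has three even subgraphs which cover all edges and whose numbers of edges sum up to at least
twice the number of edges of `G`.

Proof.  By the theorem of helper545 (`R545/PC`) there is a map of the edges of `G` to the edges of the Petersen graph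
such that the preimages of cycles are cycles.  The preimages of the complements of the six perfect
matchings of the Petersen graph are six cycles of `G`, and each edge is in exactly four of them.  The
first three of them cover `G`, and so do the last three; one of these covers is long enough.
-/

open Finset

namespace Pool.Agent.Results.MP_5ee2e8_co.IndependenceNumberSix

open Pool.Agent.H160R2.CC Pool.Agent.H160R2.CC.MGraph

/-- The edge `e` of `G` joins the vertices `x` and `y`. -/
def Joins (G : MGraph) (e : G.E) (x y : G.V) : Prop :=
  (G.src e = x ∧ G.tgt e = y) ∨ (G.src e = y ∧ G.tgt e = x)

/-- The vertices `x` and `y` are joined by an edge, or by two different paths with two edges (for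
example, they have two common neighbours). -/
def Close (G : MGraph) (x y : G.V) : Prop :=
  (∃ e, Joins G e x y) ∨
    ∃ (e f e' f' : G.E) (a b : G.V), (e ≠ e' ∨ f ≠ f') ∧ Joins G e x a ∧ Joins G f a y ∧
      Joins G e' x b ∧ Joins G f' b y

/-- Let `G` be a finite graph without cut-edge such that any seven different vertices, each of which is
an end of an edge, include two which are joined by an edge or by two different paths with two edges.
Then `G` has three even subgraphs which cover all edges and whose numbers of edges sum up to at least
twice the number of edges of `G`. -/
theorem result (G : MGraph) (hB : ¬ G.HasCutEdge)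
    (h7 : ∀ x : Fin 7 → G.V, Function.Injective x → (∀ i, ∃ e, G.src e = x i ∨ G.tgt e = x i) →
      ∃ i j, i ≠ j ∧ Close G (x i) (x j)) :
    ∃ D : Fin 3 → Finset G.E, (∀ k, G.IsCycle (D k)) ∧ (∀ e, ∃ k, e ∈ D k) ∧
      2 * Fintype.card G.E ≤ ∑ k, (D k).card :=
  Pool.Agent.R129.Sh.cover3 G (Pool.Agent.R545.PC.succ_seven G hB h7)

end Pool.Agent.Results.MP_5ee2e8_co.IndependenceNumberSix
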