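import Pool.Agent.R769.MN.PetG
import Pool.Agent.R129.Sh.Short

set_option autoImplicit false

/-!
# Three even subgraphs of total length at least twice the number of edges: graphs with matching number at most eight (MP_5ee2e8_co)

Let `G` be a finite graph without cut-edge in which every matching has at most eight edges.
Then `G` has three even subgraphs which cover all edges and whose numbers of edges sum up to at least
twice the number of edges of `G`.

Proof.  By the theorem of helper769 (`R769/MN`) there is a map of the edges of `G` to the edges of the Petersen graph
such that the preimages of cycles are cycles.  The preimages of the complements of the six perfect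
matchings of the Petersen graph are six cycles of `G`, and each edge is in exactly four of them.  The
first three of them cover `G`, and so do the last three; one of these covers is long enough.
-/

open Finset

namespace Pool.Agent.Results.MP_5ee2e8_co.MatchingNumberEight

open Pool.Agent.H160R2.CC Pool.Agent.H160R2.CC.MGraph

/-- `M` is a matching: its edges are not loops and no two of them have a common end. -/
def IsMatching (G : MGraph) (M : Finset G.E) : Prop :=
  (∀ e ∈ M, G.src e ≠ G.tgt e) ∧ ∀ e ∈ M, ∀ e' ∈ M, e ≠ e' →
    G.src e ≠ G.src e' ∧ G.src e ≠ G.tgt e' ∧ G.tgt e ≠ G.src e' ∧ G.tgt e ≠ G.tgt e'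

/-- Let `G` be a finite graph without cut-edge in which every matching has at most eight edges.
Then `G` has three even subgraphs which cover all edges and whose numbers of edges sum up to at least
twice the number of edges of `G`. -/
theorem result (G : MGraph) (hB : ¬ G.HasCutEdge)
    (hM : ∀ M : Finset G.E, IsMatching G M → M.card ≤ 8) :
    ∃ D : Fin 3 → Finset G.E, (∀ k, G.IsCycle (D k)) ∧ (∀ e, ∃ k, e ∈ D k) ∧
      2 * Fintype.card G.E ≤ ∑ k, (D k).card :=
  Pool.Agent.R129.Sh.cover3 G (Pool.Agent.R769.MN.succ_match G hB hM)

end Pool.Agent.Results.MP_5ee2e8_co.MatchingNumberEight
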