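import Pool.Agent.R926.SC.SixCor

/-!
# Three even subgraphs of total length at least twice the number of edges

A finite graph (loops and parallel edges allowed) has the vertex set `V` and the edge set `E`; the
ends of the edge `e` are `s e` and `t e`.  Let `C_1, ..., C_m` be sets of edges of a bridgeless graph `G`, such that each `C_i` has at most four
edges outside the union of the earlier ones and no bridge modulo this union (circuits, or open or
closed ears), or contains two disjoint sets each of which connects all that `C_i` connects modulo
this union.  Let `F` be their union, and assume that at most sixteen components of the graph `(V, F)`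
have an odd number of boundary edges in `G`.  Then `G` has a map to the Petersen graph for which
preimages of cycles are cycles (`R926/SC/PetMix.lean`), and
three even subgraphs which cover all edges and have together at least twice as many edges as `G`.
In particular this holds for all bridgeless graphs with at most sixteen vertices of odd degree.

For the proof of the statement on maps to the Petersen graph see MP_03045a_co/SixteenOddPieces.
-/

set_option autoImplicit false

open Finset

namespace Pool.Agent.Results.MP_5ee2e8_co.SixteenOddPieces

/-- The edges with exactly one end in `Y`. -/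
def boundary {V E : Type} [DecidableEq V] [Fintype E] (s t : E → V) (Y : Finset V) : Finset E :=
  Finset.univ.filter (fun e => ¬ (s e ∈ Y ↔ t e ∈ Y))

/-- The component of `x` in the graph with the vertices `V` and the edges `F`. -/
noncomputable def component {V E : Type} [Fintype V] (s t : E → V) (F : Finset E) (x : V) :
    Finset V :=
  open Classical in Finset.univ.filter (fun y =>
    Relation.EqvGen (fun a b => ∃ e ∈ F, s e = a ∧ t e = b) x y)

/-- The union of the sets `C j` with `j < i`. -/
def earlier {E : Type} [DecidableEq E] {m : ℕ} (C : Fin m → Finset E) (i : Fin m) : Finset E :=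
  (Finset.univ.filter (fun j => j < i)).biUnion C

/-- `H` can be added to the chain after `F`: either (short) `H` has at most four edges outside `F`
and no bridge modulo `F`: no set `Y` of vertices without boundary edges in `F` has exactly one
boundary edge in `H`; or (doubly connected) `H` contains two disjoint sets each of which connects,
modulo `F`, whatever `H` connects: every set `Y` of vertices without boundary edges in `F` and with
a boundary edge in `H` has boundary edges in both sets. -/
def Step {V E : Type} [DecidableEq V] [Fintype E] [DecidableEq E] (s t : E → V)
    (F H : Finset E) : Prop :=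
  ((H \ F).card ≤ 4 ∧ ∀ Y : Finset V, Disjoint (boundary s t Y) F →
    (boundary s t Y ∩ H).card ≠ 1) ∨
  ∃ T₁ T₂ : Finset E, T₁ ⊆ H ∧ T₂ ⊆ H ∧ Disjoint T₁ T₂ ∧ ∀ Y : Finset V,
    Disjoint (boundary s t Y) F → ¬ Disjoint (boundary s t Y) H →
      ¬ Disjoint (boundary s t Y) T₁ ∧ ¬ Disjoint (boundary s t Y) T₂

/-- Three even subgraphs (loops count twice in the degrees) which cover all edges and have together
at least twice as many edges as the graph. -/
def ThreeEven {V E : Type} [DecidableEq V] [Fintype E] [DecidableEq E] (s t : E → V) : Prop :=
  ∃ C₁ C₂ C₃ : Finset E,
    (∀ v, Even (∑ e ∈ C₁, ((if s e = v then 1 else 0) + (if t e = v then 1 else 0)))) ∧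
    (∀ v, Even (∑ e ∈ C₂, ((if s e = v then 1 else 0) + (if t e = v then 1 else 0)))) ∧
    (∀ v, Even (∑ e ∈ C₃, ((if s e = v then 1 else 0) + (if t e = v then 1 else 0)))) ∧
    C₁ ∪ C₂ ∪ C₃ = univ ∧ 2 * Fintype.card E ≤ C₁.card + C₂.card + C₃.card

/-- The components for the empty set of edges are the vertices. -/
theorem component_empty {V E : Type} [Fintype V] [DecidableEq V] (s t : E → V) (x : V) :
    component s t ∅ x = {x} := by
  classical
  ext y
  unfold component
  rw [mem_filter, mem_singleton]
  constructor
  · rintro ⟨-, h⟩
    induction h with
    | rel a b hab => obtain ⟨e, he, -⟩ := hab; exact absurd he (notMem_empty _)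
    | refl a => rfl
    | symm a b _ ih => exact ih.symm
    | trans a b c _ _ i1 i2 => exact i2.trans i1
  · rintro rfl
    exact ⟨mem_univ _, Relation.EqvGen.refl _⟩

/-- (1) Let `G` be a finite graph, given by the two ends `s e` and `t e` of each edge `e` (loops and
parallel edges allowed), such that no set of vertices is left by exactly one edge, and
`C 0, ..., C (m - 1)` sets of edges such that each `C i` can be added after the union of the earlier
ones (`Step`: at most four new edges and no bridge, or two disjoint connectors).  If at most sixteen
components of the graph with the vertices of `G`, whose edges are the elements of the sets `C i`,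
have an odd number of boundary edges, then there are three even
subgraphs which cover all edges and have together at least twice as many edges as `G`.

(2) In particular this holds for all bridgeless graphs with at most sixteen vertices of odd degree. -/
theorem result :
    (∀ (V E : Type) [Fintype V] [DecidableEq V] [Fintype E] [DecidableEq E] (s t : E → V),
      (∀ Y : Finset V, (boundary s t Y).card ≠ 1) → ∀ (m : ℕ) (C : Fin m → Finset E),
      (∀ i, Step s t (earlier C i) (C i)) →
      ((Finset.univ.image (component s t (Finset.univ.biUnion C))).filter
        (fun X => Odd (boundary s t X).card)).card ≤ 16 → ThreeEven s t) ∧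
    (∀ (V E : Type) [Fintype V] [DecidableEq V] [Fintype E] [DecidableEq E] (s t : E → V),
      (∀ Y : Finset V, (boundary s t Y).card ≠ 1) →
      (Finset.univ.filter (fun v => Odd ((Finset.univ.filter (fun e => s e = v)).card +
        (Finset.univ.filter (fun e => t e = v)).card))).card ≤ 16 → ThreeEven s t) := by
  classical
  have main : ∀ (V E : Type) [Fintype V] [DecidableEq V] [Fintype E] [DecidableEq E]
      (s t : E → V),
      (∀ Y : Finset V, (boundary s t Y).card ≠ 1) → ∀ (m : ℕ) (C : Fin m → Finset E),
      (∀ i, Step s t (earlier C i) (C i)) →
      ((Finset.univ.image (component s t (Finset.univ.biUnion C))).filter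
        (fun X => Odd (boundary s t X).card)).card ≤ 16 → ThreeEven s t := by
    intro V E _ _ _ _ s t hb m C h1 h3
    exact Pool.Agent.R926.SC.Cor.two_m (
      Pool.Agent.R926.SC.Cor.six_chain s t hb m C (Pool.Agent.R926.SC.st_of s t m C h1) h3)
  refine ⟨fun V E _ _ _ _ s t hb m C h1 h3 => main V E s t hb m C h1 h3,
    fun V E _ _ _ _ s t hb ho => ?_⟩
  refine main V E s t hb 0 (fun i => i.elim0) (fun i => i.elim0) ?_
  have h0 : Finset.univ.biUnion (fun i : Fin 0 => (i.elim0 : Finset E)) = ∅ := by
    ext e
    rw [mem_biUnion]
    constructor
    · rintro ⟨i, -⟩
      exact i.elim0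
    · intro h
      exact absurd h (notMem_empty _)
  rw [h0]
  have hdeg : ∀ v, (Finset.univ.filter (fun e => s e = v)).card +
      (Finset.univ.filter (fun e => t e = v)).card = (boundary s t {v}).card +
      2 * (Finset.univ.filter (fun e => s e = v ∧ t e = v)).card := by
    intro v
    unfold boundary
    rw [card_filter, card_filter, card_filter, card_filter, mul_sum, ← sum_add_distrib,
      ← sum_add_distrib]
    refine sum_congr rfl fun e _ => ?_
    simp only [mem_singleton]
    by_cases h1 : s e = v <;> by_cases h2 : t e = v <;> simp [h1, h2]
  have hsub : (Finset.univ.image (component s t ∅)).filter (fun X => Odd (boundary s t X).card) ⊆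
      (Finset.univ.filter (fun v => Odd ((Finset.univ.filter (fun e => s e = v)).card +
        (Finset.univ.filter (fun e => t e = v)).card))).image (fun v => {v}) := by
    intro X hX
    rw [mem_filter, mem_image] at hX
    obtain ⟨⟨v, -, hv⟩, hodd⟩ := hX
    rw [component_empty] at hv
    subst hv
    rw [mem_image]
    refine ⟨v, ?_, rfl⟩
    rw [mem_filter, hdeg v]
    exact ⟨mem_univ _, hodd.add_even (even_two_mul _)⟩
  exact (card_le_card hsub).trans (card_image_le.trans ho)

end Pool.Agent.Results.MP_5ee2e8_co.SixteenOddPieces
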