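import Pool.Agent.R545.PC.Main
import Pool.Agent.R129.Sh.Short

set_option autoImplicit false

/-!
# Three even subgraphs of total length at least twice the number of edges: graphs with vertex cover number at most nine (MP_5ee2e8_co)

Let `G` be a finite graph without cut-edge and `C` a set of at most nine vertices such that every
edge that is not a loop has an end in `C`.
Then `G` has three even subgraphs which cover all edges and whose numbers of edges sum up to at least
twice the number of edges of `G`.

Proof.  By the theorem of helper545 and helper890 (`R545/PC`, `R890/FF`) there is a map of the edges of `G` to the edges of the Petersen graph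
such that the preimages of cycles are cycles.  The preimages of the complements of the six perfect
matchings of the Petersen graph are six cycles of `G`, and each edge is in exactly four of them.  The
first three of them cover `G`, and so do the last three; one of these covers is long enough.
-/

open Finset

namespace Pool.Agent.Results.MP_5ee2e8_co.VertexCoverNine

open Pool.Agent.H160R2.CC Pool.Agent.H160R2.CC.MGraph

/-- Let `G` be a finite graph without cut-edge and `C` a set of at most nine vertices such that every
edge that is not a loop has an end in `C`.
Then `G` has three even subgraphs which cover all edges and whose numbers of edges sum up to at least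
twice the number of edges of `G`. -/
theorem result (G : MGraph) (hB : ¬ G.HasCutEdge) (C : Finset G.V)
    (hC : ∀ e, G.src e ≠ G.tgt e → G.src e ∈ C ∨ G.tgt e ∈ C) (h9 : C.card ≤ 9) :
    ∃ D : Fin 3 → Finset G.E, (∀ k, G.IsCycle (D k)) ∧ (∀ e, ∃ k, e ∈ D k) ∧
      2 * Fintype.card G.E ≤ ∑ k, (D k).card :=
  Pool.Agent.R129.Sh.cover3 G (Pool.Agent.R545.PC.succ_cover G hB C hC h9)

end Pool.Agent.Results.MP_5ee2e8_co.VertexCoverNine
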